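import Mathlib
import Pool.Agent.W5h35.GA.Cnt

set_option autoImplicit false

/-!
# `ζ(3)`, `ζ(3) / π³`, Euler's constant and the Gompertz numbers of all algebraic arguments

Let `Φ` be the field generated by all the numbers `e^β`, `β` an algebraic (complex) number. For an integer `l ≥ 1`
and an algebraic complex number `α` which is not in `(-∞, 0]` let
`δ_l(α) = ∫_0^∞ Log (1 + s / α)^l e^(-s) ds` (`δ_1(1)` is Gompertz's constant), `Log` the principal branch. For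
example `δ_1(i) = ∫_0^∞ (log (1 + s²) / 2 - i arctan s) e^(-s) ds`.

(1) Let `y_1, …, y_k` be complex numbers. Call `(l, α)` admissible if `γ + Log α` and `ζ(2), …, ζ(l)` are algebraic
over `Φ(y_1, …, y_k)`. For every finite set `S` of admissible pairs the field `Φ(y_1, …, y_k, δ_l(α) : (l, α) ∈ S)`
has transcendence degree at least `|S|` over `Φ`; and at most `k` of the numbers `y_1, …, y_k` and `δ_l(α)`,
`(l, α)` admissible, are algebraic over `Φ`.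

(2) Call `(l, α)` real admissible if `γ + log |α|`, `arg α` and `ζ(2), …, ζ(l)` are algebraic over
`Φ(y_1, …, y_k)`. At most `k` of the numbers `y_1, …, y_k`, `Re δ_l(α)` (`(l, α)` real admissible, `Im α ≥ 0`) and
`Im δ_l(α)` (`(l, α)` real admissible, `Im α < 0`) are algebraic over `Φ`. (Note that `δ_l` at the conjugate of `α`
is the conjugate of `δ_l(α)`.)

(3) Let `β_1, …, β_m` be nonzero algebraic numbers and `c ≥ 0`. At most `m + c + 3` of the numbers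
`ζ(3), ζ(3) / π³, ζ(5), …, ζ(2c + 3), γ, Log β_1, …, Log β_m` and `δ_l(α)`, where `1 ≤ l ≤ 2c + 4` and `α` runs through
the numbers not in `(-∞, 0]` for which some power `α^n`, `n ≥ 1`, is in the multiplicative group generated by
`β_1, …, β_m`, are algebraic over `Φ`. For `m = 0` these are the roots of unity `α ≠ -1`.

(4) If `β_1, …, β_m` are positive real numbers, then (3) holds with `Re δ_l(α)` (`Im α ≥ 0`) and `Im δ_l(α)`
(`Im α < 0`) instead of `δ_l(α)`.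

(5) Let `b_1, …, b_m` be positive real algebraic numbers. At most `m + 1` of the numbers `γ, log b_1, …, log b_m` and
`Re (e^(-α) δ_1(α))`, where `α` runs through the algebraic numbers not in `(-∞, 0]` with `Im α ≥ 0` for which some
power `|α|^n`, `n ≥ 1`, is in the multiplicative group generated by `b_1, …, b_m`, are algebraic over `Φ`. For `m = 0`
these are the algebraic numbers `α ≠ -1` with `|α| = 1`, `Im α ≥ 0`.

In (1)-(5) numbers of different names are counted separately.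
-/

namespace Pool.Agent.Results.MP_e48a95_nt.AlgebraicArguments

open Set

/-- the field `Φ` generated by the numbers `e^β`, `β` algebraic -/
noncomputable def Phi : IntermediateField ℚ ℂ :=
  IntermediateField.adjoin ℚ {z | ∃ β : ℂ, IsAlgebraic ℚ β ∧ z = Complex.exp β}

/-- `x` is algebraic over `Φ` -/
def AlgebraicOverPhi (x : ℂ) : Prop := IsAlgebraic Phi x

/-- `x` is algebraic over `Φ(y_1, …, y_k)` -/
def AlgebraicOverPhiAnd {κ : Type} (y : κ → ℂ) (x : ℂ) : Prop :=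
  IsAlgebraic (IntermediateField.adjoin Phi (range y)) x

/-- `δ_l(α) = ∫_0^∞ Log (1 + s / α)^l e^(-s) ds` -/
noncomputable def delta (l : ℕ) (α : ℂ) : ℂ :=
  ∫ s in Ioi (0 : ℝ), Complex.log (1 + s / α) ^ l * (Real.exp (-s) : ℝ)

/-- `ζ(s) = ∑ 1 / n^s` -/
noncomputable def zeta (s : ℕ) : ℝ := ∑' n : ℕ, 1 / ((n : ℝ) + 1) ^ s

/-- the pairs `(l, α)`, `l ≥ 1`, `α` algebraic and not in `(-∞, 0]` -/
def Pair (p : ℕ × ℂ) : Prop := 1 ≤ p.1 ∧ IsAlgebraic ℚ p.2 ∧ (0 < p.2.re ∨ p.2.im ≠ 0)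

/-- admissible pairs -/
def Admissible {κ : Type} (y : κ → ℂ) (p : ℕ × ℂ) : Prop :=
  Pair p ∧ AlgebraicOverPhiAnd y (Real.eulerMascheroniConstant + Complex.log p.2) ∧
    ∀ s, 2 ≤ s → s ≤ p.1 → AlgebraicOverPhiAnd y (zeta s)

/-- real admissible pairs -/
def RealAdmissible {κ : Type} (y : κ → ℂ) (p : ℕ × ℂ) : Prop :=
  Pair p ∧ AlgebraicOverPhiAnd y ((Real.eulerMascheroniConstant + Real.log ‖p.2‖ : ℝ) : ℂ) ∧
    AlgebraicOverPhiAnd y ((p.2.arg : ℝ) : ℂ) ∧ ∀ s, 2 ≤ s → s ≤ p.1 → AlgebraicOverPhiAnd y (zeta s)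

/-- the names, among those of the numbers `y_j` and `δ_l(α)`, `(l, α) ∈ P`, of the numbers algebraic over `Φ` -/
def algebraicNames {κ : Type} (y : κ → ℂ) (P : Set (ℕ × ℂ)) : Set (κ ⊕ (ℕ × ℂ)) :=
  {i | Sum.elim (fun j => AlgebraicOverPhi (y j)) (fun p => p ∈ P ∧ AlgebraicOverPhi (delta p.1 p.2)) i}

/-- `Re δ_l(α)` for `Im α ≥ 0` and `Im δ_l(α)` for `Im α < 0` -/
noncomputable def part (l : ℕ) (α : ℂ) : ℝ := if 0 ≤ α.im then (delta l α).re else (delta l α).im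

/-- the names, among those of the numbers `y_j`, `Re δ_l(α)` (`(l, α) ∈ P`, `Im α ≥ 0`) and `Im δ_l(α)`
(`(l, α) ∈ P`, `Im α < 0`), of the numbers algebraic over `Φ` -/
def realAlgebraicNames {κ : Type} (y : κ → ℂ) (P : Set (ℕ × ℂ)) : Set (κ ⊕ (ℕ × ℂ)) :=
  {i | Sum.elim (fun j => AlgebraicOverPhi (y j)) (fun p => p ∈ P ∧ AlgebraicOverPhi (part p.1 p.2)) i}

/-- the numbers `α` not in `(-∞, 0]` for which some `α^n`, `n ≥ 1`, is in the multiplicative group generated by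
`β_1, …, β_m` -/
def divisionGroup {m : ℕ} (β : Fin m → ℂ) : Set ℂ :=
  {α | (0 < α.re ∨ α.im ≠ 0) ∧ ∃ n : ℕ, 1 ≤ n ∧ ∃ k : Fin m → ℤ, α ^ n = ∏ j, β j ^ k j}

/-- the numbers `ζ(3), ζ(3) / π³, ζ(5), ζ(7), …, ζ(2c + 3), γ, Log β_1, …, Log β_m` -/
noncomputable def base (c : ℕ) {m : ℕ} (β : Fin m → ℂ) : Fin (c + 2) ⊕ Fin (m + 1) → ℂ :=
  Sum.elim (Fin.cons (zeta 3 : ℂ) (Fin.cons ((zeta 3 / Real.pi ^ 3 : ℝ) : ℂ) fun i : Fin c => (zeta (2 * i + 5) : ℂ)))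
    (Fin.cons (Real.eulerMascheroniConstant : ℂ) fun j => Complex.log (β j))

/-- the numbers `α` of (5) -/
def absGroup {m : ℕ} (b : Fin m → ℝ) : Set ℂ :=
  {α | IsAlgebraic ℚ α ∧ (0 < α.re ∨ α.im ≠ 0) ∧ 0 ≤ α.im ∧ ∃ n : ℕ, 1 ≤ n ∧ ∃ k : Fin m → ℤ, ‖α‖ ^ n = ∏ j, b j ^ k j}

/-- `Re (e^(-α) δ_1(α))` -/
noncomputable def reExpInt (α : ℂ) : ℝ := (Complex.exp (-α) * delta 1 α).re

/-- the names, among those of the numbers `γ, log b_j` and `Re (e^(-α) δ_1(α))`, `α ∈ absGroup b`, of the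
numbers algebraic over `Φ` -/
def expIntNames {m : ℕ} (b : Fin m → ℝ) : Set (Fin (m + 1) ⊕ ℂ) :=
  {i | Sum.elim (fun j => AlgebraicOverPhi ((Fin.cons Real.eulerMascheroniConstant (fun j => Real.log (b j)) : Fin (m + 1) → ℝ) j))
    (fun α => α ∈ absGroup b ∧ AlgebraicOverPhi (reExpInt α)) i}

open Pool.Agent.W5h35.GA (cl mem_cl mem_cl0 subset_cl cl_mono)

theorem alg_iff {x : ℂ} : AlgebraicOverPhi x ↔ x ∈ cl ∅ := mem_cl0.symm

theorem algAnd_iff {κ : Type} {y : κ → ℂ} {x : ℂ} : AlgebraicOverPhiAnd y x ↔ x ∈ cl (range y) := mem_cl.symm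

theorem pair_iff {p : ℕ × ℂ} : Pair p ↔ Pool.Agent.W5h35.GA.Pr p := Iff.rfl

theorem adm_iff {κ : Type} {y : κ → ℂ} {p : ℕ × ℂ} : Admissible y p ↔ Pool.Agent.W5h35.GA.AdmC (range y) p := by
  unfold Admissible Pool.Agent.W5h35.GA.AdmC
  simp only [algAnd_iff]
  exact Iff.rfl

theorem radm_iff {κ : Type} {y : κ → ℂ} {p : ℕ × ℂ} : RealAdmissible y p ↔ Pool.Agent.W5h35.GA.AdmR (range y) p := by
  unfold RealAdmissible Pool.Agent.W5h35.GA.AdmR
  simp only [algAnd_iff]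
  exact Iff.rfl

theorem count {κ : Type} [Fintype κ] (y : κ → ℂ) (P : Set (ℕ × ℂ)) (hP : ∀ p ∈ P, Admissible y p) :
    (algebraicNames y P).encard ≤ (Fintype.card κ : ℕ∞) := by
  have h := Pool.Agent.W5h35.GA.count_C y P (fun p hp => adm_iff.1 (hP p hp))
  unfold algebraicNames
  simp only [alg_iff]
  exact h

theorem realCount {κ : Type} [Fintype κ] (y : κ → ℂ) (P : Set (ℕ × ℂ)) (hP : ∀ p ∈ P, RealAdmissible y p) :
    (realAlgebraicNames y P).encard ≤ (Fintype.card κ : ℕ∞) := by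
  have h := Pool.Agent.W5h35.GA.count_R y P (fun p hp => radm_iff.1 (hP p hp))
  unfold realAlgebraicNames
  simp only [alg_iff]
  exact h

/-! ## groups -/

theorem base_mem {T : Set ℂ} {c m : ℕ} {β : Fin m → ℂ} (h : range (base c β) ⊆ cl T) :
    (Real.pi : ℂ) ∈ cl T ∧ (∀ s, 2 ≤ s → s ≤ 2 * c + 4 → (zeta s : ℂ) ∈ cl T) ∧
      (Real.eulerMascheroniConstant : ℂ) ∈ cl T ∧ ∀ j, Complex.log (β j) ∈ cl T := by
  have h1 : ∀ i, ((Pool.Agent.W5h35.GA.cons c i : ℝ) : ℂ) ∈ cl T := by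
    intro i
    obtain ⟨i, hi⟩ := i
    rcases i with _ | _ | i
    · exact h ⟨Sum.inl 0, rfl⟩
    · have h2 := h ⟨Sum.inl (Fin.succ 0), rfl⟩
      simp only [base, Sum.elim_inl, Fin.cons_succ, Fin.cons_zero] at h2
      simp only [Pool.Agent.W5h35.GA.cons, zero_add, one_ne_zero, if_false, if_true]
      exact h2
    · have h2 := h ⟨Sum.inl (Fin.succ (Fin.succ ⟨i, by omega⟩)), rfl⟩
      simp only [base, Sum.elim_inl, Fin.cons_succ] at h2
      have e1 : i + 1 + 1 ≠ 0 := by omega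
      have e2 : i + 1 + 1 ≠ 1 := by omega
      have e3 : 2 * (i + 1 + 1) + 1 = 2 * i + 5 := by omega
      simp only [Pool.Agent.W5h35.GA.cons, e1, e2, if_false, e3]
      exact h2
  obtain ⟨h2, h3⟩ := Pool.Agent.W5h35.GA.cons_mem h1
  exact ⟨h2, h3, h ⟨Sum.inr 0, rfl⟩, fun j => h ⟨Sum.inr j.succ, rfl⟩⟩

theorem group_alg {m : ℕ} {β : Fin m → ℂ} (hβ : ∀ j, β j ≠ 0 ∧ IsAlgebraic ℚ (β j)) {α : ℂ} (hα : α ∈ divisionGroup β) :
    IsAlgebraic ℚ α := by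
  obtain ⟨-, n, hn, k, h⟩ := hα
  refine IsAlgebraic.of_pow (n := n) (by omega) ?_
  rw [h]
  have h1 : (∏ j, β j ^ k j) ∈ integralClosure ℚ ℂ := by
    refine Subalgebra.prod_mem _ fun j _ => ?_
    have h2 := (hβ j).2
    rcases k j with t | t
    · simp only [Int.ofNat_eq_natCast, zpow_natCast]
      exact Subalgebra.pow_mem _ (isAlgebraic_iff_isIntegral.1 h2) _
    · rw [zpow_negSucc]
      exact isAlgebraic_iff_isIntegral.1 (h2.pow _).inv
  exact isAlgebraic_iff_isIntegral.2 h1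

theorem three {c m : ℕ} {β : Fin m → ℂ} (hβ : ∀ j, β j ≠ 0 ∧ IsAlgebraic ℚ (β j)) :
    (algebraicNames (base c β) {p | 1 ≤ p.1 ∧ p.1 ≤ 2 * c + 4 ∧ p.2 ∈ divisionGroup β}).encard ≤ ((m + c + 3 : ℕ) : ℕ∞) := by
  refine (count (base c β) _ ?_).trans_eq ?_
  · rintro ⟨l, α⟩ ⟨h1, h2, h3⟩
    simp only at h1 h2 h3
    obtain ⟨a1, a2, a3, a4⟩ := base_mem (T := range (base c β)) (c := c) (β := β) (subset_cl _)
    refine ⟨⟨h1, group_alg hβ h3, h3.1⟩, ?_, fun s hs hs' => algAnd_iff.2 (a2 s hs (by simp only at hs'; omega))⟩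
    obtain ⟨h4, n, hn, k, h5⟩ := h3
    refine algAnd_iff.2 ((cl _).add_mem a3 ?_)
    exact Pool.Agent.W5h35.GA.log_mem a1 (fun j => (hβ j).1) a4 (Complex.slitPlane_ne_zero h4) (by omega) h5
  · simp only [Fintype.card_sum, Fintype.card_fin]
    congr 1
    ring

theorem four {c m : ℕ} {b : Fin m → ℝ} (hb : ∀ j, 0 < b j ∧ IsAlgebraic ℚ (b j)) :
    (realAlgebraicNames (base c fun j => (b j : ℂ))
      {p | 1 ≤ p.1 ∧ p.1 ≤ 2 * c + 4 ∧ p.2 ∈ divisionGroup fun j => (b j : ℂ)}).encard ≤ ((m + c + 3 : ℕ) : ℕ∞) := by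
  have hβ : ∀ j, (b j : ℂ) ≠ 0 ∧ IsAlgebraic ℚ (b j : ℂ) := fun j =>
    ⟨by exact_mod_cast (hb j).1.ne', (hb j).2.algebraMap⟩
  refine (realCount (base c fun j => (b j : ℂ)) _ ?_).trans_eq ?_
  · rintro ⟨l, α⟩ ⟨h1, h2, h3⟩
    simp only at h1 h2 h3
    obtain ⟨a1, a2, a3, a4⟩ := base_mem (T := range (base c fun j => (b j : ℂ))) (c := c) (β := fun j => (b j : ℂ)) (subset_cl _)
    have hlog : ∀ j, ((Real.log (b j) : ℝ) : ℂ) ∈ cl (range (base c fun j => (b j : ℂ))) := by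
      intro j
      rw [Complex.ofReal_log (hb j).1.le]
      exact a4 j
    have halg := group_alg hβ h3
    obtain ⟨h4, n, hn, k, h5⟩ := h3
    have h6 := Pool.Agent.W5h35.GA.log_mem a1 (fun j => (hβ j).1) a4 (Complex.slitPlane_ne_zero h4) (by omega) h5
    have h7 : ‖α‖ ^ n = ∏ j, b j ^ k j := by
      rw [← norm_pow, h5, norm_prod]
      refine Finset.prod_congr rfl fun j _ => ?_
      rw [norm_zpow, Complex.norm_real, Real.norm_eq_abs, abs_of_pos (hb j).1]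
    have h8 := Pool.Agent.W5h35.GA.log_norm_mem (fun j => (hb j).1) hlog (by omega) h7
    refine ⟨⟨h1, halg, h4⟩, ?_, ?_, fun s hs hs' => algAnd_iff.2 (a2 s hs (by simp only at hs'; omega))⟩
    · rw [algAnd_iff, Complex.ofReal_add]
      exact (cl _).add_mem a3 h8
    · rw [algAnd_iff]
      exact Pool.Agent.W5h35.GA.arg_mem h6 h8
  · simp only [Fintype.card_sum, Fintype.card_fin]
    congr 1
    ring

theorem five {m : ℕ} {b : Fin m → ℝ} (hb : ∀ j, 0 < b j) : (expIntNames b).encard ≤ ((m + 1 : ℕ) : ℕ∞) := by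
  let y : Fin (m + 1) → ℂ := fun j =>
    (((Fin.cons Real.eulerMascheroniConstant (fun j => Real.log (b j)) : Fin (m + 1) → ℝ) j : ℝ) : ℂ)
  have h := Pool.Agent.W5h35.GA.count_one y (absGroup b) ?_
  · rw [Fintype.card_fin] at h
    refine le_trans (encard_le_encard ?_) h
    rintro (j | α) hi
    · exact alg_iff.1 hi
    · exact ⟨hi.1, alg_iff.1 hi.2⟩
  · rintro α ⟨h1, h2, h3, n, hn, k, h4⟩
    refine ⟨h1, h2, h3, ?_⟩
    rw [Complex.ofReal_add]
    refine (cl (range y)).add_mem (subset_cl _ (mem_range_self (f := y) 0)) ?_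
    exact Pool.Agent.W5h35.GA.log_norm_mem hb (fun j => subset_cl _ (mem_range_self (f := y) j.succ)) (by omega) h4

theorem result :
    -- (1), (2)
    (∀ (κ : Type) [Fintype κ] (y : κ → ℂ),
      (∀ S : Finset (ℕ × ℂ), (∀ p ∈ S, Admissible y p) →
        (S.card : Cardinal) ≤ Algebra.trdeg Phi (IntermediateField.adjoin Phi
          (range y ∪ (fun p : ℕ × ℂ => delta p.1 p.2) '' (S : Set (ℕ × ℂ))))) ∧
      (algebraicNames y {p | Admissible y p}).encard ≤ (Fintype.card κ : ℕ∞) ∧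
      (realAlgebraicNames y {p | RealAdmissible y p}).encard ≤ (Fintype.card κ : ℕ∞)) ∧
    -- (3)
    (∀ (c m : ℕ) (β : Fin m → ℂ), (∀ j, β j ≠ 0 ∧ IsAlgebraic ℚ (β j)) →
      (algebraicNames (base c β) {p | 1 ≤ p.1 ∧ p.1 ≤ 2 * c + 4 ∧ p.2 ∈ divisionGroup β}).encard ≤
        ((m + c + 3 : ℕ) : ℕ∞)) ∧
    -- (4)
    (∀ (c m : ℕ) (b : Fin m → ℝ), (∀ j, 0 < b j ∧ IsAlgebraic ℚ (b j)) →
      (realAlgebraicNames (base c fun j => (b j : ℂ))
        {p | 1 ≤ p.1 ∧ p.1 ≤ 2 * c + 4 ∧ p.2 ∈ divisionGroup fun j => (b j : ℂ)}).encard ≤ ((m + c + 3 : ℕ) : ℕ∞)) ∧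
    -- (5)
    (∀ (m : ℕ) (b : Fin m → ℝ), (∀ j, 0 < b j ∧ IsAlgebraic ℚ (b j)) → (expIntNames b).encard ≤ ((m + 1 : ℕ) : ℕ∞)) :=
  ⟨fun _ _ y => ⟨fun S hS => Pool.Agent.W5h35.GA.trdeg_C y S fun p hp => adm_iff.1 (hS p hp),
    count y _ fun _ hp => hp, realCount y _ fun _ hp => hp⟩,
    fun _ _ _ hβ => three hβ, fun _ _ _ hb => four hb, fun _ _ hb => five fun j => (hb j).1⟩

end Pool.Agent.Results.MP_e48a95_nt.AlgebraicArguments
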