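import Mathlib
import Pool.Agent.W5h65.GS.Count

set_option autoImplicit false

/-!
# `ζ(3)`, `ζ(n)`, Euler's constant and the logarithmic cumulants of Gaussian Fourier transforms

For a positive rational number `r` and `x = √r` let
`F_r(ε) = ∫_0^∞ s^ε sin (x s) e^(-s²) ds` and `H_r(ε) = ∫_0^∞ s^(1 + ε) cos (x s) e^(-s²) ds`, and let
`κ_n(r)` and `λ_n(r)` be the derivatives of order `n ≥ 1` of `log |F_r(ε)|` and `log |H_r(ε)|` at
`ε = 0`. Thus, with `f_l = ∫_0^∞ (log s)^l sin (x s) e^(-s²) ds`, we have `κ_1 = f_1 / f_0` and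
`κ_3 = f_3 / f_0 - 3 f_1 f_2 / f_0² + 2 (f_1 / f_0)³`. Let `c_1 = - γ / 2` and
`c_n = (-1)^n (n - 1)! ζ(n) / 2^n` for `n ≥ 2`.

(1) The numbers `e`, `F_r(0)`, `κ_n(r) - c_n`, `λ_n(r) - c_n` (`n ≥ 1`, `r > 0` rational) are
algebraically independent.

For a set `N` of positive integers let `K_N` be the field generated by `e`, all `F_r(0)` and all
`κ_n(r) - c_n`, `λ_n(r) - c_n` with `n` not in `N`.

(2) For every `n ≥ 2` at most one of the numbers `ζ(n)`, `κ_n(r)`, `λ_n(r)` (`r > 0` rational) is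
algebraic over `K_{n}`; for `n = 1` the same holds for `γ`, `κ_1(r)`, `λ_1(r)`. In particular all but at most one of
the numbers `ζ(3)`, `κ_3(r)`, `λ_3(r)` are transcendental over `ℚ(e)`.

(3) For every `c ≥ 0` at most `c + 2` of the numbers `ζ(3), ζ(3) / π³, ζ(5), ζ(7), …, ζ(2c + 3)` and
`κ_n(r)`, `λ_n(r)` (`2 ≤ n ≤ 2c + 3`, `r > 0` rational) are algebraic over `K_{2, 3, …, 2c + 3}`.

In (2) and (3) numbers of different names are counted separately.
-/

namespace Pool.Agent.Results.MP_e48a95_nt.GaussianCumulants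

open Set

/-- the zeta value `ζ(s) = ∑ 1 / n^s` -/
noncomputable def zeta (s : ℕ) : ℝ := ∑' n : ℕ, 1 / ((n : ℝ) + 1) ^ s

/-- `F_r(ε) = ∫_0^∞ s^ε sin (√r s) e^(-s²) ds` -/
noncomputable def F (r : ℚ) (ε : ℝ) : ℝ :=
  ∫ s in Ioi (0 : ℝ), s ^ ε * Real.sin (√(r : ℝ) * s) * Real.exp (-s ^ 2)

/-- `H_r(ε) = ∫_0^∞ s^(1 + ε) cos (√r s) e^(-s²) ds` -/
noncomputable def H (r : ℚ) (ε : ℝ) : ℝ :=
  ∫ s in Ioi (0 : ℝ), s ^ (1 + ε) * Real.cos (√(r : ℝ) * s) * Real.exp (-s ^ 2)

/-- `κ_n(r)`, the derivative of order `n` of `log |F_r|` at `0` -/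
noncomputable def kappa (n : ℕ) (r : ℚ) : ℝ := iteratedDeriv n (fun ε => Real.log |F r ε|) 0

/-- `λ_n(r)`, the derivative of order `n` of `log |H_r|` at `0` -/
noncomputable def lam (n : ℕ) (r : ℚ) : ℝ := iteratedDeriv n (fun ε => Real.log |H r ε|) 0

/-- `c_1 = - γ / 2` and `c_n = (-1)^n (n - 1)! ζ(n) / 2^n` for `n ≥ 2` -/
noncomputable def gammaPart (n : ℕ) : ℝ :=
  if n = 1 then -Real.eulerMascheroniConstant / 2 else (-1) ^ n * (n - 1).factorial * zeta n / 2 ^ n

/-- the names of the algebraically independent numbers -/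
inductive Index : Type
  /-- `e` -/
  | e : Index
  /-- `F_r(0)` -/
  | f (r : ℚ) : Index
  /-- `κ_n(r) - c_n` -/
  | kappa (n : ℕ) (r : ℚ) : Index
  /-- `λ_n(r) - c_n` -/
  | lam (n : ℕ) (r : ℚ) : Index

/-- `r` is positive and `n` is at least `1` -/
def Index.Valid : Index → Prop
  | .e => True
  | .f r => 0 < r
  | .kappa n r => 1 ≤ n ∧ 0 < r
  | .lam n r => 1 ≤ n ∧ 0 < r

/-- the order of a number -/
def Index.order : Index → ℕ
  | .e => 0
  | .f _ => 0
  | .kappa n _ => n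
  | .lam n _ => n

/-- the algebraically independent numbers -/
noncomputable def number : Index → ℝ
  | .e => Real.exp 1
  | .f r => F r 0
  | .kappa n r => kappa n r - gammaPart n
  | .lam n r => lam n r - gammaPart n

/-- the field `K_N` -/
noncomputable def baseField (N : Set ℕ) : IntermediateField ℚ ℝ :=
  IntermediateField.adjoin ℚ (number '' {i | i.Valid ∧ i.order ∉ N})

/-- the names of `ζ(n)` (`γ` for `n = 1`), `κ_n(r)` and `λ_n(r)` -/
inductive Name1 : Type
  /-- `ζ(n)`, or `γ` if `n = 1` -/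
  | const : Name1
  /-- `κ_n(r)` -/
  | kappa (r : ℚ) : Name1
  /-- `λ_n(r)` -/
  | lam (r : ℚ) : Name1

/-- `r` is positive -/
def Name1.Valid : Name1 → Prop
  | .const => True
  | .kappa r => 0 < r
  | .lam r => 0 < r

/-- the numbers -/
noncomputable def value1 (n : ℕ) : Name1 → ℝ
  | .const => if n = 1 then Real.eulerMascheroniConstant else zeta n
  | .kappa r => kappa n r
  | .lam r => lam n r

/-- the names of the numbers `ζ(n)` (`γ` for `n = 1`), `κ_n(r)`, `λ_n(r)` (`r > 0`) which are algebraic over `K_{n}` -/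
def algebraicNames1 (n : ℕ) : Set Name1 := {i | i.Valid ∧ IsAlgebraic (baseField {n}) (value1 n i)}

/-- the names of `ζ(3), ζ(3) / π³, ζ(5), …, ζ(2c + 3)`, `κ_n(r)` and `λ_n(r)` -/
inductive Name (c : ℕ) : Type
  /-- `ζ(3)` -/
  | zetaThree : Name c
  /-- `ζ(3) / π³` -/
  | ratio : Name c
  /-- `ζ(5), ζ(7), …, ζ(2c + 3)` -/
  | oddZeta (i : Fin c) : Name c
  /-- `κ_n(r)` -/
  | kappa (n : ℕ) (r : ℚ) : Name c
  /-- `λ_n(r)` -/
  | lam (n : ℕ) (r : ℚ) : Name c

/-- `2 ≤ n ≤ 2c + 3` and `r` is positive -/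
def Name.Valid {c : ℕ} : Name c → Prop
  | .zetaThree => True
  | .ratio => True
  | .oddZeta _ => True
  | .kappa n r => n ∈ Icc 2 (2 * c + 3) ∧ 0 < r
  | .lam n r => n ∈ Icc 2 (2 * c + 3) ∧ 0 < r

/-- the numbers -/
noncomputable def value {c : ℕ} : Name c → ℝ
  | .zetaThree => zeta 3
  | .ratio => zeta 3 / Real.pi ^ 3
  | .oddZeta i => zeta (2 * i + 5)
  | .kappa n r => kappa n r
  | .lam n r => lam n r

/-- the names of the numbers `ζ(3), ζ(3) / π³, ζ(5), …, ζ(2c + 3)`, `κ_n(r)`, `λ_n(r)` (`2 ≤ n ≤ 2c + 3`, `r > 0`)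
which are algebraic over `K_{2, …, 2c + 3}` -/
def algebraicNames (c : ℕ) : Set (Name c) :=
  {i | i.Valid ∧ IsAlgebraic (baseField (Icc 2 (2 * c + 3))) (value i)}

/-! ## Translation -/

open Pool.Agent.W5h65.GS in
theorem F_eq (r : ℚ) (ε : ℝ) : F r ε = FI (gS (√(r : ℝ))) 0 ε := by
  rw [F, FI]
  refine MeasureTheory.setIntegral_congr_fun measurableSet_Ioi fun s _ => ?_
  simp only [gS, pow_zero]
  ring

open Pool.Agent.W5h65.GS in
theorem H_eq (r : ℚ) (ε : ℝ) : H r ε = FI (gC (√(r : ℝ))) 0 ε := by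
  rw [H, FI]
  refine MeasureTheory.setIntegral_congr_fun measurableSet_Ioi fun s hs => ?_
  have hs' : (0 : ℝ) < s := hs
  simp only [gC, pow_zero]
  rw [Real.rpow_add hs', Real.rpow_one]
  ring

open Pool.Agent.W5h65.GS in
theorem kappa_eq (n : ℕ) (r : ℚ) : kappa n r = cum (gS (√(r : ℝ))) n := by
  rw [kappa, cum]
  congr 1
  funext ε
  rw [Real.log_abs, F_eq]

open Pool.Agent.W5h65.GS in
theorem lam_eq (n : ℕ) (r : ℚ) : lam n r = cum (gC (√(r : ℝ))) n := by
  rw [lam, cum]
  congr 1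
  funext ε
  rw [Real.log_abs, H_eq]

theorem gammaPart_eq {n : ℕ} (hn : 1 ≤ n) : gammaPart n = Pool.Agent.R352.E.cc (n - 1) / 2 ^ n := by
  rw [gammaPart]
  split_ifs with h
  · subst h
    simp [Pool.Agent.R352.E.cc]
  · obtain ⟨i, rfl⟩ : ∃ i, n = i + 2 := ⟨n - 2, by omega⟩
    have e1 : i + 2 - 1 = i + 1 := by omega
    rw [e1, Pool.Agent.R352.E.cc, pow_add (-1 : ℝ) i 2]
    simp only [zeta, Pool.Agent.R352.E.zt]
    ring

/-- the encoding of the indices used in the proof -/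
def enc : Index → Pool.Agent.W5h65.GS.I0
  | .e => none
  | .f r => some (r, Sum.inl 0)
  | .kappa n r => some (r, Sum.inl n)
  | .lam n r => some (r, Sum.inr (n - 1))

theorem enc_vld {i : Index} (h : i.Valid) : Pool.Agent.W5h65.GS.vld (enc i) := by
  cases i with
  | e => trivial
  | f r => exact h
  | kappa n r => exact h.2
  | lam n r => exact h.2

theorem enc_ord {i : Index} (h : i.Valid) : Pool.Agent.W5h65.GS.ord (enc i) = i.order := by
  cases i with
  | e => rfl
  | f r => rfl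
  | kappa n r => rfl
  | lam n r =>
    have := h.1
    show n - 1 + 1 = n
    omega

theorem enc_nm {i : Index} (h : i.Valid) : Pool.Agent.W5h65.GS.nm (enc i) = number i := by
  cases i with
  | e => rfl
  | f r => exact (F_eq r 0).symm
  | kappa n r =>
    have h1 : 1 ≤ n := h.1
    rw [number, gammaPart_eq h1, kappa_eq]
    obtain ⟨j, rfl⟩ : ∃ j, n = j + 1 := ⟨n - 1, by omega⟩
    rfl
  | lam n r =>
    have h1 : 1 ≤ n := h.1
    rw [number, gammaPart_eq h1, lam_eq]
    obtain ⟨j, rfl⟩ : ∃ j, n = j + 1 := ⟨n - 1, by omega⟩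
    rfl

theorem enc_inj {i j : Index} (hi : i.Valid) (hj : j.Valid) (h : enc i = enc j) : i = j := by
  cases i <;> cases j <;> simp [enc] at h ⊢ <;> simp [Index.Valid] at hi hj <;> grind

theorem indep : AlgebraicIndependent ℚ (fun i : {i : Index // i.Valid} => number i) := by
  have h := Pool.Agent.W5h65.GS.nm_alg_all.comp
    (fun i : {i : Index // i.Valid} => (⟨enc i.1, enc_vld i.2⟩ : {i // Pool.Agent.W5h65.GS.vld i}))
    (fun i j hij => Subtype.ext (enc_inj i.2 j.2 (congrArg Subtype.val hij)))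
  convert h using 1
  funext i
  exact (enc_nm i.2).symm

open Pool.Agent.R352.E (clF mem_clF) in
theorem mem_base {N : Set ℕ} {x : ℝ} (h : IsAlgebraic (baseField N) x) :
    x ∈ clF (Pool.Agent.W5h65.GS.nm '' {i | Pool.Agent.W5h65.GS.vld i ∧ Pool.Agent.W5h65.GS.ord i ∉ N}) := by
  have h1 : x ∈ clF (number '' {i | i.Valid ∧ i.order ∉ N}) := mem_clF.2 h
  refine Pool.Agent.R352.E.clF_mono ?_ h1
  rintro _ ⟨i, ⟨hi, hiN⟩, rfl⟩
  exact ⟨enc i, ⟨enc_vld hi, by rw [enc_ord hi]; exact hiN⟩, enc_nm hi⟩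

/-- the encoding of the names in (2) -/
def enc1 (n : ℕ) : Name1 → Fin 1 ⊕ Pool.Agent.W5h65.GS.I0
  | .const => Sum.inl 0
  | .kappa r => Sum.inr (some (r, Sum.inl n))
  | .lam r => Sum.inr (some (r, Sum.inr (n - 1)))

theorem enc1_inj (n : ℕ) : Function.Injective (enc1 n) := by
  intro i j h
  cases i <;> cases j <;> simp_all [enc1]

theorem part2 {n : ℕ} (hn : 1 ≤ n) : (algebraicNames1 n).encard ≤ 1 := by
  classical
  refine Pool.Agent.R352.E.encard_le_of_finset _ 1 fun t ht => ?_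
  have h := Pool.Agent.W5h65.GS.count_cum (m := 1) (fun _ => value1 n .const) {n} (by simp; omega) ?_
    (t.map ⟨enc1 n, enc1_inj n⟩) ?_ ?_
  · rwa [Finset.card_map] at h
  · intro T hT k hk
    have hk' : k = n := hk
    rw [hk']
    have h0 := hT 0
    simp only [value1] at h0
    split_ifs at h0 with h1
    · rw [h1]
      exact (Pool.Agent.R352.E.clF T).neg_mem h0
    · obtain ⟨i, rfl⟩ : ∃ i, n = i + 2 := ⟨n - 2, by omega⟩
      have e1 : i + 2 - 1 = i + 1 := by omega
      rw [e1, Pool.Agent.R352.E.cc]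
      refine Subfield.mul_mem _ (Subfield.mul_mem _ ?_ (natCast_mem _ _)) h0
      exact Subfield.pow_mem _ (Subfield.neg_mem _ (Subfield.one_mem _)) _
  · intro k hk
    obtain ⟨i, hi, rfl⟩ := Finset.mem_map.1 hk
    have h1 := mem_base (ht hi).2
    have h2 : Sum.elim (fun _ => value1 n .const) Pool.Agent.W5h65.GS.cm (enc1 n i) = value1 n i := by
      cases i with
      | const => rfl
      | kappa r => exact (kappa_eq n r).symm
      | lam r =>
        show Pool.Agent.W5h65.GS.cum (Pool.Agent.W5h65.GS.gC (√(r : ℝ))) (n - 1 + 1) = lam n r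
        rw [lam_eq, Nat.sub_add_cancel hn]
    rw [Function.Embedding.coeFn_mk, h2]
    exact h1
  · intro i hi
    obtain ⟨j, hj, hji⟩ := Finset.mem_map.1 hi
    have hv := (ht hj).1
    cases j with
    | const => exact absurd hji (by simp [enc1])
    | kappa r =>
      have h1 : i = some (r, Sum.inl n) := (Sum.inr_injective hji).symm
      subst h1
      exact ⟨hv, rfl⟩
    | lam r =>
      have h1 : i = some (r, Sum.inr (n - 1)) := (Sum.inr_injective hji).symm
      subst h1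
      exact ⟨hv, Nat.sub_add_cancel hn⟩

/-- the encoding of the names in (3) -/
def enc3 {c : ℕ} : Name c → Fin (c + 2) ⊕ Pool.Agent.W5h65.GS.I0
  | .zetaThree => Sum.inl 0
  | .ratio => Sum.inl 1
  | .oddZeta i => Sum.inl i.succ.succ
  | .kappa n r => Sum.inr (some (r, Sum.inl n))
  | .lam n r => Sum.inr (some (r, Sum.inr (n - 1)))

theorem enc3_inj {c : ℕ} {i j : Name c} (hi : i.Valid) (hj : j.Valid) (h : enc3 i = enc3 j) : i = j := by
  cases i <;> cases j <;> simp_all [enc3, Fin.ext_iff, Name.Valid] <;> omega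

theorem part3 (c : ℕ) : (algebraicNames c).encard ≤ ((c + 2 : ℕ) : ℕ∞) := by
  classical
  refine Pool.Agent.R352.E.encard_le_of_finset _ _ fun t ht => ?_
  have hinj : Set.InjOn (enc3 (c := c)) (t : Set (Name c)) := fun i hi j hj h => enc3_inj (ht hi).1 (ht hj).1 h
  have h := Pool.Agent.W5h65.GS.count_cum (m := c + 2) (Pool.Agent.R352.E.con3 c) (Icc 2 (2 * c + 3)) (by simp) ?_
    (t.image enc3) ?_ ?_
  · rwa [Finset.card_image_of_injOn hinj] at h
  · intro T hT n hn
    have hpi : Real.pi ∈ Pool.Agent.R352.E.clF T := by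
      have h1 : Pool.Agent.R352.E.zt 3 ∈ Pool.Agent.R352.E.clF T := hT 0
      have h2 : Pool.Agent.R352.E.zt 3 / Real.pi ^ 3 ∈ Pool.Agent.R352.E.clF T := hT 1
      refine Pool.Agent.R352.E.of_pow (n := 3) (by norm_num) ?_
      have h3 : Real.pi ^ 3 = Pool.Agent.R352.E.zt 3 / (Pool.Agent.R352.E.zt 3 / Real.pi ^ 3) := by
        have := Pool.Agent.R352.E.zt3_pos.ne'
        have := Real.pi_ne_zero
        field_simp
      rw [h3]
      exact Subfield.div_mem _ h1 h2
    obtain ⟨i, rfl⟩ : ∃ i, n = i + 2 := ⟨n - 2, by have := hn.1; omega⟩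
    have e1 : i + 2 - 1 = i + 1 := by omega
    rw [e1, Pool.Agent.R352.E.cc]
    refine Subfield.mul_mem _ (Subfield.mul_mem _ ?_ (natCast_mem _ _)) ?_
    · exact Subfield.pow_mem _ (Subfield.neg_mem _ (Subfield.one_mem _)) _
    · refine Pool.Agent.R352.E.zt_all hpi (c + 1) (fun j hj => ?_) (i + 2) hn.1 (by have := hn.2; omega)
      cases j with
      | zero => exact hT 0
      | succ j =>
        have := hT (Fin.succ (Fin.succ ⟨j, by omega⟩))
        simp only [Pool.Agent.R352.E.con3, Fin.cons_succ] at this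
        have e : 2 * (j + 1) + 3 = 2 * j + 5 := by ring
        rw [e]
        exact this
  · intro k hk
    obtain ⟨i, hi, rfl⟩ := Finset.mem_image.1 hk
    have h1 := mem_base (ht hi).2
    have hv := (ht hi).1
    have h2 : Sum.elim (Pool.Agent.R352.E.con3 c) Pool.Agent.W5h65.GS.cm (enc3 i) = value i := by
      cases i with
      | zetaThree => rfl
      | ratio => rfl
      | oddZeta i => simp [enc3, Pool.Agent.R352.E.con3, value, zeta, Pool.Agent.R352.E.zt]
      | kappa n r => exact (kappa_eq n r).symm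
      | lam n r =>
        show Pool.Agent.W5h65.GS.cum (Pool.Agent.W5h65.GS.gC (√(r : ℝ))) (n - 1 + 1) = lam n r
        have : 2 ≤ n := hv.1.1
        rw [lam_eq, Nat.sub_add_cancel (by omega)]
    rw [h2]
    exact h1
  · intro i hi
    obtain ⟨j, hj, hji⟩ := Finset.mem_image.1 hi
    have hv := (ht hj).1
    cases j with
    | zetaThree => exact absurd hji (by simp [enc3])
    | ratio => exact absurd hji (by simp [enc3])
    | oddZeta j => exact absurd hji (by simp [enc3])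
    | kappa n r =>
      have h1 : i = some (r, Sum.inl n) := (Sum.inr_injective hji).symm
      subst h1
      exact ⟨hv.2, hv.1⟩
    | lam n r =>
      have h1 : i = some (r, Sum.inr (n - 1)) := (Sum.inr_injective hji).symm
      subst h1
      refine ⟨hv.2, ?_⟩
      have h2 : n - 1 + 1 = n := Nat.sub_add_cancel (by have : 2 ≤ n := hv.1.1; omega)
      show n - 1 + 1 ∈ Icc 2 (2 * c + 3)
      rw [h2]
      exact hv.1

theorem result :
    -- (1)
    AlgebraicIndependent ℚ (fun i : {i : Index // i.Valid} => number i) ∧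
    -- (2)
    (∀ n : ℕ, 1 ≤ n → (algebraicNames1 n).encard ≤ 1) ∧
    -- (3)
    (∀ c : ℕ, (algebraicNames c).encard ≤ ((c + 2 : ℕ) : ℕ∞)) :=
  ⟨indep, fun _ hn => part2 hn, part3⟩

end Pool.Agent.Results.MP_e48a95_nt.GaussianCumulants
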