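import Mathlib
import Pool.Agent.W5h34.RG.Rel

set_option autoImplicit false

/-!
# `ζ(3)`, `ζ(3) / π³`, Euler's constant and the Gompertz numbers of all rational exponents

For an integer `l ≥ 0`, a rational number `0 ≤ a < 1` and a positive rational number `x` let
`G_l(a, x) = ∫_0^∞ log (1 + s / x)^l (1 + s / x)^(a - 1) e^(-s) ds`
(`G_0(0, 1)` is Gompertz's constant). Write `ψ = Γ' / Γ`, `ζ(s, a) = ∑ 1 / (n + a)^s`,
`β(s) = 1 - 3^(-s) + 5^(-s) - …` and `L(s) = 1 - 2^(-s) + 4^(-s) - 5^(-s) + …`.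

(1) Let `y_1, …, y_k` be real numbers. Call `(l, a, x)` admissible if either `a > 0` and
`Γ(a)`, `ψ(a) - log x` (for `l ≥ 1`), `ζ(2, a), …, ζ(l, a)` are algebraic over `ℚ(e, y_1, …, y_k)`, or
`a = 0` and `γ + log x`, `ζ(2), …, ζ(l + 1)` are algebraic over `ℚ(e, y_1, …, y_k)`. For every finite set `S` of
admissible triples, with arbitrary different exponents `a`, the field
`ℚ(e, y_1, …, y_k, G_l(a, x) : (l, a, x) ∈ S)` has transcendence degree at least `|S| + 1`; and at most `k` of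
the numbers `y_1, …, y_k` and `G_l(a, x)`, `(l, a, x)` admissible, are algebraic over `ℚ(e)`.

Let `G` be the multiplicative group generated by positive rational numbers `b_1, …, b_m`, and `c ≥ 0`.

(2) Let `q ≥ 1`, `h = ⌊(q - 1) / 2⌋`, and `2 ∈ G` if `q` is even. At most `m + c + 3 + h (2c + 4)` of the numbers
`ζ(3), ζ(3) / π³, ζ(5), …, ζ(2c + 3), γ, log b_1, …, log b_m`, `Γ(j / q), ψ(j / q), ζ(2, j / q), …, ζ(2c + 3, j / q)`
(`1 ≤ j ≤ h`) and `G_l(a, x)` (`0 ≤ l ≤ 2c + 3`, `q a ∈ {0, 1, …, q - 1}`, `x ∈ G`) are algebraic over `ℚ(e)`.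

(3) Let `2, 3 ∈ G`. At most `m + 3c + 7` of the numbers `ζ(3), ζ(3) / π³, ζ(5), …, ζ(2c + 3), γ, log b_1, …, log b_m`,
`Γ(1/4), Γ(1/3), β(2), β(4), …, β(2c + 2), L(2), L(4), …, L(2c + 2)` and `G_l(a, x)` (`0 ≤ l ≤ 2c + 3`,
`a ∈ {0, 1/6, 1/4, 1/3, 1/2, 2/3, 3/4, 5/6}`, `x ∈ G`) are algebraic over `ℚ(e)`.

In (1), (2) and (3) numbers of different names are counted separately.
-/

namespace Pool.Agent.Results.MP_e48a95_nt.GompertzAllExponents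

open Set

/-- `G_l(a, x) = ∫_0^∞ log (1 + s / x)^l (1 + s / x)^(a - 1) e^(-s) ds` -/
noncomputable def G (l : ℕ) (a x : ℚ) : ℝ :=
  ∫ s in Ioi (0 : ℝ), Real.log (1 + s / (x : ℝ)) ^ l * (1 + s / (x : ℝ)) ^ ((a : ℝ) - 1) * Real.exp (-s)

/-- `ζ(s) = ∑ 1 / n^s` -/
noncomputable def zeta (s : ℕ) : ℝ := ∑' n : ℕ, 1 / ((n : ℝ) + 1) ^ s

/-- `ζ(s, a) = ∑ 1 / (n + a)^s` -/
noncomputable def hurwitz (s : ℕ) (a : ℚ) : ℝ := ∑' n : ℕ, 1 / ((n : ℝ) + (a : ℝ)) ^ s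

/-- `β(s) = ∑ (-1)^n / (2n + 1)^s` -/
noncomputable def beta (s : ℕ) : ℝ := ∑' n : ℕ, (-1) ^ n / (2 * (n : ℝ) + 1) ^ s

/-- `L(s) = ∑ (1 / (3n + 1)^s - 1 / (3n + 2)^s)` -/
noncomputable def L (s : ℕ) : ℝ := ∑' n : ℕ, (1 / (3 * (n : ℝ) + 1) ^ s - 1 / (3 * (n : ℝ) + 2) ^ s)

/-- `ψ(a) = Γ'(a) / Γ(a)` -/
noncomputable def psi (a : ℚ) : ℝ := deriv Real.Gamma a / Real.Gamma a

/-- `x` is algebraic over `ℚ(e, y_1, …, y_k)` -/
def AlgebraicOverEAnd {κ : Type} (y : κ → ℝ) (x : ℝ) : Prop :=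
  IsAlgebraic (IntermediateField.adjoin ℚ ({Real.exp 1} ∪ range y)) x

/-- `x` is algebraic over `ℚ(e)` -/
def AlgebraicOverE (x : ℝ) : Prop := IsAlgebraic (IntermediateField.adjoin ℚ {Real.exp 1}) x

/-- admissible triples `(l, a, x)` -/
def Admissible {κ : Type} (y : κ → ℝ) (p : ℕ × ℚ × ℚ) : Prop :=
  0 ≤ p.2.1 ∧ p.2.1 < 1 ∧ 0 < p.2.2 ∧
    (0 < p.2.1 → AlgebraicOverEAnd y (Real.Gamma p.2.1) ∧
      (1 ≤ p.1 → AlgebraicOverEAnd y (psi p.2.1 - Real.log p.2.2)) ∧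
      ∀ s, 2 ≤ s → s ≤ p.1 → AlgebraicOverEAnd y (hurwitz s p.2.1)) ∧
    (p.2.1 = 0 → AlgebraicOverEAnd y (Real.eulerMascheroniConstant + Real.log p.2.2) ∧
      ∀ s, 2 ≤ s → s ≤ p.1 + 1 → AlgebraicOverEAnd y (zeta s))

/-- the names, among those of the numbers `y_j` and `G_l(a, x)`, `(l, a, x) ∈ P`, of the numbers algebraic over `ℚ(e)` -/
def algebraicNames {κ : Type} (y : κ → ℝ) (P : Set (ℕ × ℚ × ℚ)) : Set (κ ⊕ (ℕ × ℚ × ℚ)) :=
  {i | Sum.elim (fun j => AlgebraicOverE (y j)) (fun p => p ∈ P ∧ AlgebraicOverE (G p.1 p.2.1 p.2.2)) i}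

/-- the multiplicative group generated by `b_1, …, b_m` -/
def group {m : ℕ} (b : Fin m → ℚ) : Set ℚ := {x | ∃ n : Fin m → ℤ, x = ∏ i, b i ^ n i}

/-- the triples `(l, a, x)` with `l ≤ 2c + 3`, `a ∈ A` and `x` in the group generated by `b_1, …, b_m` -/
def triples (c : ℕ) (A : Set ℚ) {m : ℕ} (b : Fin m → ℚ) : Set (ℕ × ℚ × ℚ) :=
  {p | p.1 ≤ 2 * c + 3 ∧ p.2.1 ∈ A ∧ p.2.2 ∈ group b}

/-- the numbers `ζ(3), ζ(3) / π³, ζ(5), ζ(7), …, ζ(2c + 3), γ, log b_1, …, log b_m` -/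
noncomputable def base (c : ℕ) {m : ℕ} (b : Fin m → ℚ) : Fin (c + 2) ⊕ Fin (m + 1) → ℝ :=
  Sum.elim (Fin.cons (zeta 3) (Fin.cons (zeta 3 / Real.pi ^ 3) fun i : Fin c => zeta (2 * i + 5)))
    (Fin.cons Real.eulerMascheroniConstant fun i => Real.log (b i))

/-- the numbers of (2): those of `base` and `Γ(j / q)`, `ψ(j / q)`, `ζ(2, j / q), …, ζ(2c + 3, j / q)`, `1 ≤ j ≤ h` -/
noncomputable def constQ (q c : ℕ) {m : ℕ} (b : Fin m → ℚ) :
    (Fin (c + 2) ⊕ Fin (m + 1)) ⊕ Fin ((q - 1) / 2) ⊕ Fin ((q - 1) / 2) ⊕ (Fin ((q - 1) / 2) × Fin (2 * c + 2)) → ℝ :=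
  Sum.elim (base c b) (Sum.elim (fun j => Real.Gamma ((((j : ℕ) + 1 : ℚ) / q : ℚ) : ℝ))
    (Sum.elim (fun j => psi (((j : ℕ) + 1 : ℚ) / q)) fun p => hurwitz (p.2 + 2) (((p.1 : ℕ) + 1 : ℚ) / q)))

/-- the numbers of (3): those of `base`, `Γ(1/4), β(2), β(4), …, β(2c + 2)` and `Γ(1/3), L(2), L(4), …, L(2c + 2)` -/
noncomputable def constTwelve (c : ℕ) {m : ℕ} (b : Fin m → ℚ) :
    (Fin (c + 2) ⊕ Fin (m + 1)) ⊕ (Unit ⊕ Fin (c + 1)) ⊕ (Unit ⊕ Fin (c + 1)) → ℝ :=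
  Sum.elim (base c b) (Sum.elim (Sum.elim (fun _ => Real.Gamma (1 / 4)) fun i => beta (2 * i + 2))
    (Sum.elim (fun _ => Real.Gamma (1 / 3)) fun i => L (2 * i + 2)))

open Pool.Agent.R352.E (clF mem_clF subset_clF clF_mono clF_le of_pow zt)
open Pool.Agent.W5h34.RG (Kn Adm pr hz bt l3)

theorem G_eq (l : ℕ) (a x : ℚ) : G l a x = Pool.Agent.R352.T.ga a l x := by
  rw [G, Pool.Agent.R352.T.ga]
  refine MeasureTheory.setIntegral_congr_fun measurableSet_Ioi fun s _ => ?_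
  ring

theorem psi_eq {a : ℚ} (ha : 0 < a) : psi a = pr 0 a :=
  Pool.Agent.W5h34.RG.digamma_eq (by exact_mod_cast ha)

theorem adm {κ : Type} {y : κ → ℝ} {p : ℕ × ℚ × ℚ} (h : Admissible y p) :
    0 ≤ p.2.1 ∧ p.2.1 < 1 ∧ 0 < p.2.2 ∧ Adm ({Real.exp 1} ∪ range y) p.1 p.2.1 p.2.2 := by
  obtain ⟨h1, h2, h3, h4, h5⟩ := h
  refine ⟨h1, h2, h3, fun h6 => ?_, fun h6 => ?_⟩
  · obtain ⟨h7, h8, h9⟩ := h4 h6
    refine ⟨mem_clF.2 h7, fun hl => ?_, fun s hs hs' => mem_clF.2 (h9 s hs hs')⟩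
    rw [← psi_eq h6]
    exact mem_clF.2 (h8 hl)
  · obtain ⟨h7, h8⟩ := h5 h6
    exact ⟨mem_clF.2 h7, fun s hs hs' => mem_clF.2 (h8 s hs hs')⟩

theorem count {κ : Type} [Fintype κ] (y : κ → ℝ) (P : Set (ℕ × ℚ × ℚ)) 
    (hP : ∀ p ∈ P, 0 ≤ p.2.1 ∧ p.2.1 < 1 ∧ 0 < p.2.2 ∧ Adm ({Real.exp 1} ∪ range y) p.1 p.2.1 p.2.2) :
    (algebraicNames y P).encard ≤ (Fintype.card κ : ℕ∞) := by
  refine le_trans (encard_le_encard ?_) (Pool.Agent.W5h34.RG.count_all y P hP)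
  rintro (i | p) hi
  · exact mem_clF.2 hi
  · refine ⟨hi.1, mem_clF.2 ?_⟩
    rw [← G_eq]
    exact hi.2

theorem trdeg {κ : Type} [Fintype κ] (y : κ → ℝ) (S : Finset (ℕ × ℚ × ℚ)) (hS : ∀ p ∈ S, Admissible y p) :
    ((S.card + 1 : ℕ) : Cardinal) ≤ Algebra.trdeg ℚ (IntermediateField.adjoin ℚ
      ({Real.exp 1} ∪ range y ∪ (fun p : ℕ × ℚ × ℚ => G p.1 p.2.1 p.2.2) '' (S : Set (ℕ × ℚ × ℚ)))) := by
  have h := Pool.Agent.W5h34.RG.trdeg_all y S fun p hp => adm (hS p hp)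
  have e : (fun p : ℕ × ℚ × ℚ => G p.1 p.2.1 p.2.2) = fun p => Pool.Agent.R352.T.ga p.2.1 p.1 p.2.2 :=
    funext fun p => G_eq _ _ _
  rw [e]
  exact h

/-! ## the base constants -/

section

variable {T : Set ℝ} {c m : ℕ} {b : Fin m → ℚ}

theorem base_pi (h : range (base c b) ⊆ clF T) : Real.pi ∈ clF T := by
  have h1 : zt 3 ∈ clF T := h ⟨Sum.inl 0, rfl⟩
  have h2 : zt 3 / Real.pi ^ 3 ∈ clF T := h ⟨Sum.inl 1, rfl⟩
  refine of_pow (n := 3) (by norm_num) ?_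
  have h3 : Real.pi ^ 3 = zt 3 / (zt 3 / Real.pi ^ 3) := by
    have := Pool.Agent.R352.E.zt3_pos.ne'
    have := Real.pi_ne_zero
    field_simp
  rw [h3]
  exact (clF T).div_mem h1 h2

theorem base_zeta (h : range (base c b) ⊆ clF T) (s : ℕ) (hs : 2 ≤ s) (hs' : s ≤ 2 * c + 4) : zt s ∈ clF T := by
  refine Pool.Agent.R352.E.zt_all (base_pi h) (c + 1) (fun i hi => ?_) s hs (by omega)
  cases i with
  | zero => exact h ⟨Sum.inl 0, rfl⟩
  | succ i =>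
    have h1 := h ⟨Sum.inl (Fin.succ (Fin.succ ⟨i, by omega⟩)), rfl⟩
    simp only [base, Sum.elim_inl, Fin.cons_succ] at h1
    have e : 2 * (i + 1) + 3 = 2 * i + 5 := by ring
    rw [e]
    exact h1

theorem base_gamma (h : range (base c b) ⊆ clF T) : Real.eulerMascheroniConstant ∈ clF T :=
  h ⟨Sum.inr 0, rfl⟩

theorem group_pos (hb : ∀ i, 0 < b i) {x : ℚ} (hx : x ∈ group b) : 0 < x := by
  obtain ⟨n, rfl⟩ := hx
  exact Finset.prod_pos fun i _ => zpow_pos (hb i) _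

theorem base_log (h : range (base c b) ⊆ clF T) (hb : ∀ i, 0 < b i) {x : ℚ} (hx : x ∈ group b) : Real.log x ∈ clF T := by
  obtain ⟨n, rfl⟩ := hx
  have h1 : Real.log ((∏ i, b i ^ n i : ℚ) : ℝ) = ∑ i, (n i : ℝ) * Real.log (b i) := by
    push_cast
    rw [Real.log_prod]
    · refine Finset.sum_congr rfl fun i _ => ?_
      rw [Real.log_zpow]
    · intro i _
      have : (b i : ℝ) ≠ 0 := by exact_mod_cast (hb i).ne'
      exact zpow_ne_zero _ this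
  rw [h1]
  exact Subfield.sum_mem _ fun i _ => Subfield.mul_mem _ (intCast_mem _ _) (h ⟨Sum.inr i.succ, rfl⟩)

theorem base_two (h : range (base c b) ⊆ clF T) (hb : ∀ i, 0 < b i) (h2 : (2 : ℚ) ∈ group b) : Real.log 2 ∈ clF T := by
  have := base_log h hb h2
  push_cast at this
  exact this

theorem base_three (h : range (base c b) ⊆ clF T) (hb : ∀ i, 0 < b i) (h2 : (3 : ℚ) ∈ group b) : Real.log 3 ∈ clF T := by
  have := base_log h hb h2
  push_cast at this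
  exact this

/-- admissibility from the base constants -/
theorem base_adm (h : range (base c b) ⊆ clF T) (hb : ∀ i, 0 < b i) {l : ℕ} (hl : l ≤ 2 * c + 3) {a x : ℚ}
    (hx : x ∈ group b) (ha : 0 < a → Kn T a (2 * c + 3)) : Adm T l a x := by
  refine ⟨fun h0 => ?_, fun h0 => ?_⟩
  · have hK := ha h0
    refine ⟨hK.gam, fun _ => ?_, fun s hs hs' => hK.hzm s hs (by omega)⟩
    have e : pr 0 a - Real.log x = (pr 0 a + Real.eulerMascheroniConstant) - (Real.eulerMascheroniConstant + Real.log x) := by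
      ring
    rw [e]
    exact (clF T).sub_mem hK.psi ((clF T).add_mem (base_gamma h) (base_log h hb hx))
  · exact ⟨(clF T).add_mem (base_gamma h) (base_log h hb hx), fun s hs hs' => base_zeta h s hs (by omega)⟩

end

/-- the general form of (2) and (3) -/
theorem main {κ : Type} [Fintype κ] {c m : ℕ} {b : Fin m → ℚ} (hb : ∀ i, 0 < b i) (k : κ → ℝ) (A : Set ℚ)
    (hA : ∀ a ∈ A, 0 ≤ a ∧ a < 1)
    (hk : ∀ T : Set ℝ, range (base c b) ⊆ clF T → range k ⊆ clF T → ∀ a ∈ A, 0 < a → Kn T a (2 * c + 3)) :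
    (algebraicNames (Sum.elim (base c b) k) (triples c A b)).encard ≤ ((c + 2 + (m + 1) + Fintype.card κ : ℕ) : ℕ∞) := by
  have h := count (Sum.elim (base c b) k) (triples c A b) ?_
  · simpa using h
  · rintro ⟨l, a, x⟩ ⟨hl, ha, hx⟩
    have h1 : range (base c b) ⊆ clF ({Real.exp 1} ∪ range (Sum.elim (base c b) k)) := by
      rintro _ ⟨i, rfl⟩
      exact subset_clF _ (Or.inr ⟨Sum.inl i, rfl⟩)
    have h2 : range k ⊆ clF ({Real.exp 1} ∪ range (Sum.elim (base c b) k)) := by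
      rintro _ ⟨i, rfl⟩
      exact subset_clF _ (Or.inr ⟨Sum.inr i, rfl⟩)
    exact ⟨(hA a ha).1, (hA a ha).2, group_pos hb hx, base_adm h1 hb hl hx (hk _ h1 h2 a ha)⟩

section

variable {T : Set ℝ} {c m : ℕ} {b : Fin m → ℚ}

theorem knFour (h : range (base c b) ⊆ clF T) (hb : ∀ i, 0 < b i) (h2 : (2 : ℚ) ∈ group b)
    (hG : Real.Gamma (1 / 4) ∈ clF T) (hB : ∀ i : Fin (c + 1), beta (2 * i + 2) ∈ clF T) :
    Kn T (1 / 2) (2 * c + 3) ∧ Kn T (1 / 4) (2 * c + 3) ∧ Kn T (3 / 4) (2 * c + 3) := by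
  have hz' : ∀ s, 2 ≤ s → s ≤ 2 * c + 3 → zt s ∈ clF T := fun s hs hs' => base_zeta h s hs (by omega)
  refine ⟨Pool.Agent.W5h34.RG.Kn_half (base_pi h) (base_two h hb h2) hz',
    Pool.Agent.W5h34.RG.Kn_quarter (base_pi h) (base_two h hb h2) hz' hG fun s hs hs' he => ?_⟩
  obtain ⟨r, hr⟩ := he
  have := hB ⟨r - 1, by omega⟩
  have e : 2 * (r - 1) + 2 = s := by omega
  simp only [e] at this
  exact this

theorem knThree (h : range (base c b) ⊆ clF T) (hb : ∀ i, 0 < b i) (h2 : (2 : ℚ) ∈ group b) (h3 : (3 : ℚ) ∈ group b)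
    (hG : Real.Gamma (1 / 3) ∈ clF T) (hB : ∀ i : Fin (c + 1), L (2 * i + 2) ∈ clF T) :
    Kn T (1 / 2) (2 * c + 3) ∧ (Kn T (1 / 3) (2 * c + 3) ∧ Kn T (2 / 3) (2 * c + 3)) ∧
      (Kn T (1 / 6) (2 * c + 3) ∧ Kn T (5 / 6) (2 * c + 3)) := by
  have hz' : ∀ s, 2 ≤ s → s ≤ 2 * c + 3 → zt s ∈ clF T := fun s hs hs' => base_zeta h s hs (by omega)
  have ht : Kn T (1 / 3) (2 * c + 3) ∧ Kn T (2 / 3) (2 * c + 3) := by
    refine Pool.Agent.W5h34.RG.Kn_third (base_pi h) (base_three h hb h3) hz' hG fun s hs hs' he => ?_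
    obtain ⟨r, hr⟩ := he
    have := hB ⟨r - 1, by omega⟩
    have e : 2 * (r - 1) + 2 = s := by omega
    simp only [e] at this
    exact this
  exact ⟨Pool.Agent.W5h34.RG.Kn_half (base_pi h) (base_two h hb h2) hz', ht,
    Pool.Agent.W5h34.RG.Kn_sixth (base_pi h) (base_two h hb h2) ht.1 ht.2⟩

end

theorem three {c m : ℕ} {b : Fin m → ℚ} (hb : ∀ i, 0 < b i) (h2 : (2 : ℚ) ∈ group b) (h3 : (3 : ℚ) ∈ group b) :
    (algebraicNames (constTwelve c b) (triples c {0, 1 / 6, 1 / 4, 1 / 3, 1 / 2, 2 / 3, 3 / 4, 5 / 6} b)).encard ≤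
      ((m + 3 * c + 7 : ℕ) : ℕ∞) := by
  refine (main hb _ _ ?_ ?_).trans_eq ?_
  · intro a ha
    simp only [mem_insert_iff, mem_singleton_iff] at ha
    rcases ha with rfl | rfl | rfl | rfl | rfl | rfl | rfl | rfl <;> norm_num
  · intro T h hk a ha ha0
    obtain ⟨-, k6, k7⟩ := knFour h hb h2 (hk ⟨Sum.inl (Sum.inl ()), rfl⟩) (fun i => hk ⟨Sum.inl (Sum.inr i), rfl⟩)
    obtain ⟨k1, ⟨k2, k3⟩, k4, k5⟩ := knThree h hb h2 h3 (hk ⟨Sum.inr (Sum.inl ()), rfl⟩)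
      (fun i => hk ⟨Sum.inr (Sum.inr i), rfl⟩)
    simp only [mem_insert_iff, mem_singleton_iff] at ha
    rcases ha with rfl | rfl | rfl | rfl | rfl | rfl | rfl | rfl
    · exact absurd ha0 (lt_irrefl _)
    · push_cast; exact k4
    · push_cast; exact k6
    · push_cast; exact k2
    · push_cast; exact k1
    · push_cast; exact k3
    · push_cast; exact k7
    · push_cast; exact k5
  · rw [Fintype.card_sum, Fintype.card_sum, Fintype.card_unit, Fintype.card_fin]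
    congr 1
    ring

theorem two {q c m : ℕ} (hq : 1 ≤ q) {b : Fin m → ℚ} (hb : ∀ i, 0 < b i) (h2 : Even q → (2 : ℚ) ∈ group b) :
    (algebraicNames (constQ q c b) (triples c {a | ∃ j : ℕ, j < q ∧ a = (j : ℚ) / q} b)).encard ≤
      ((m + c + 3 + (q - 1) / 2 * (2 * c + 4) : ℕ) : ℕ∞) := by
  have hq' : (0 : ℚ) < q := by exact_mod_cast hq
  refine (main hb _ _ ?_ ?_).trans_eq ?_
  · rintro a ⟨j, hj, rfl⟩
    refine ⟨by positivity, ?_⟩
    rw [div_lt_one hq']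
    exact_mod_cast hj
  · rintro T h hk a ⟨j, hj, rfl⟩ ha0
    have hj0 : 0 < j := by
      by_contra h0
      have : j = 0 := by omega
      subst this
      simp at ha0
    -- small `j`
    have small : ∀ j : ℕ, 0 < j → 2 * j < q → Kn T (((j : ℚ) / q : ℚ) : ℝ) (2 * c + 3) := by
      intro j hj0 hj2
      obtain ⟨i, rfl⟩ : ∃ i, j = i + 1 := ⟨j - 1, by omega⟩
      have hi : i < (q - 1) / 2 := by omega
      have hpos : (0 : ℚ) < ((i : ℕ) + 1 : ℚ) / q := by positivity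
      push_cast
      refine ⟨?_, ?_, fun s hs hs' => ?_⟩
      · have h1 := hk ⟨Sum.inl ⟨i, hi⟩, rfl⟩
        simp only [Sum.elim_inl] at h1
        push_cast at h1
        exact h1
      · have h1 := hk ⟨Sum.inr (Sum.inl ⟨i, hi⟩), rfl⟩
        simp only [Sum.elim_inr, Sum.elim_inl] at h1
        rw [psi_eq hpos] at h1
        push_cast at h1
        exact (clF T).add_mem h1 (base_gamma h)
      · have h1 := hk ⟨Sum.inr (Sum.inr (⟨i, hi⟩, ⟨s - 2, by omega⟩)), rfl⟩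
        simp only [Sum.elim_inr, hurwitz] at h1
        have e : s - 2 + 2 = s := by omega
        rw [e] at h1
        push_cast at h1
        exact h1
    rcases lt_trichotomy (2 * j) q with h3 | h3 | h3
    · exact small j hj0 h3
    · have h4 : (((j : ℚ) / q : ℚ) : ℝ) = 1 / 2 := by
        rw [← h3]
        have : (j : ℝ) ≠ 0 := by exact_mod_cast hj0.ne'
        push_cast
        field_simp
      rw [h4]
      refine Pool.Agent.W5h34.RG.Kn_half (base_pi h) (base_two h hb (h2 ⟨j, by omega⟩))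
        fun s hs hs' => base_zeta h s hs (by omega)
    · have h4 := Pool.Agent.W5h34.RG.Kn_refl (T := T) (L := 2 * c + 3) (a := ((q - j : ℕ) : ℚ) / q)
        (div_pos (by exact_mod_cast (by omega : 0 < q - j)) hq')
        (by rw [div_lt_one hq']; exact_mod_cast (by omega : q - j < q)) (base_pi h) (small (q - j) (by omega) (by omega))
      have h5 : (1 : ℚ) - ((q - j : ℕ) : ℚ) / q = (j : ℚ) / q := by
        rw [Nat.cast_sub hj.le]
        field_simp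
        ring
      rw [h5] at h4
      exact h4
  · rw [Fintype.card_sum, Fintype.card_sum, Fintype.card_prod, Fintype.card_fin, Fintype.card_fin]
    congr 1
    ring

theorem result :
    -- (1)
    (∀ (κ : Type) [Fintype κ] (y : κ → ℝ),
      (∀ S : Finset (ℕ × ℚ × ℚ), (∀ p ∈ S, Admissible y p) →
        ((S.card + 1 : ℕ) : Cardinal) ≤ Algebra.trdeg ℚ (IntermediateField.adjoin ℚ
          ({Real.exp 1} ∪ range y ∪ (fun p : ℕ × ℚ × ℚ => G p.1 p.2.1 p.2.2) '' (S : Set (ℕ × ℚ × ℚ))))) ∧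
      (algebraicNames y {p | Admissible y p}).encard ≤ (Fintype.card κ : ℕ∞)) ∧
    -- (2)
    (∀ (q c m : ℕ) (b : Fin m → ℚ), 1 ≤ q → (∀ i, 0 < b i) → (Even q → (2 : ℚ) ∈ group b) →
      (algebraicNames (constQ q c b) (triples c {a | ∃ j : ℕ, j < q ∧ a = (j : ℚ) / q} b)).encard ≤
        ((m + c + 3 + (q - 1) / 2 * (2 * c + 4) : ℕ) : ℕ∞)) ∧
    -- (3)
    (∀ (c m : ℕ) (b : Fin m → ℚ), (∀ i, 0 < b i) → (2 : ℚ) ∈ group b → (3 : ℚ) ∈ group b →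
      (algebraicNames (constTwelve c b)
        (triples c {0, 1 / 6, 1 / 4, 1 / 3, 1 / 2, 2 / 3, 3 / 4, 5 / 6} b)).encard ≤ ((m + 3 * c + 7 : ℕ) : ℕ∞)) :=
  ⟨fun _ _ y => ⟨trdeg y, count y _ fun _ hp => adm hp⟩, fun _ _ _ _ hq hb h2 => two hq hb h2,
    fun _ _ _ hb h2 h3 => three hb h2 h3⟩

end Pool.Agent.Results.MP_e48a95_nt.GompertzAllExponents
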