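import Mathlib
import Pool.Agent.W5h65.NC.Count

set_option autoImplicit false

/-!
# `ζ(3)`, `ζ(n)`, Euler's constant and the logarithmic cumulants of noncentral chi-square laws

Let `I(u) = ∑ u^k / k!²`, so that `I(u) = I_0(2 √u)` for `u ≥ 0` and `I(u) = J_0(2 √(-u))` for `u ≤ 0`. For a rational
number `r` let `G_r(ε) = ∫_0^∞ s^ε e^(-s) I(r s) ds` (so `G_0(ε) = Γ(1 + ε)` and `G_r(0) = e^r`), and let `κ_n(r)` be
the derivative of order `n ≥ 1` of `log |G_r(ε)|` at `ε = 0`. For `r ≥ 0` the number `κ_n(r)` is the cumulant of order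
`n` of `log |Z + √r|²`, where `Z` is a standard complex Gaussian variable (`|Z + √r|²` has the noncentral chi-square law
with two degrees of freedom): indeed `e^(-r) G_r(ε)` is the expectation of `|Z + √r|^(2 ε)`.

(0) `κ_1(0) = - γ` and `κ_n(0) = (-1)^n (n - 1)! ζ(n)` for `n ≥ 2`; and
`κ_1(r) = log r + e^(-r) ∫_0^∞ log (1 + s / r) e^(-s) ds` for `r > 0`, so `κ_1(1) = δ / e` where `δ` is the
Euler-Gompertz constant.

(1) The numbers `e` and `κ_n(r) - κ_n(0)` (`n ≥ 1`, `r ≠ 0` rational) are algebraically independent.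

For a set `N` of positive integers let `K_N` be the field generated by `e` and all `κ_n(r) - κ_n(0)` with `n` not in `N`.

(2) For every `n ≥ 1` there is at most one rational number `r` such that `κ_n(r)` is algebraic over `K_{n}`. Here
`r = 0` is allowed: it stands for `γ` (`n = 1`) and for `ζ(n)` (`n ≥ 2`). In particular all but at most one of the
numbers `ζ(3)` and `κ_3(r)` (`r ≠ 0` rational) are transcendental over `ℚ(e)`, and all but at most one of the numbers
`γ` and `κ_1(r)` (`r ≠ 0` rational) are transcendental over the field generated by `e` and all `κ_n(r) - κ_n(0)`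
with `n ≥ 2`.

(3) For every `c ≥ 0` at most `c + 2` of the numbers `ζ(3) / π³` and `κ_n(r)`, where `2 ≤ n ≤ 2c + 3` and `r` is
rational, and nonzero if `n` is even, are algebraic over `K_{2, 3, …, 2c + 3}`. For `r = 0` and `n` odd the number
`κ_n(r)` is `- (n - 1)! ζ(n)`. Numbers of different names are counted separately.
-/

namespace Pool.Agent.Results.MP_e48a95_nt.NoncentralCumulants

open Set

/-- the zeta value `ζ(s) = ∑ 1 / n^s` -/
noncomputable def zeta (s : ℕ) : ℝ := ∑' n : ℕ, 1 / ((n : ℝ) + 1) ^ s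

/-- `I(u) = ∑ u^k / k!²` -/
noncomputable def besselI (u : ℝ) : ℝ := ∑' k : ℕ, u ^ k / (k.factorial : ℝ) ^ 2

/-- `G_r(ε) = ∫_0^∞ s^ε e^(-s) I(r s) ds` -/
noncomputable def G (r : ℚ) (ε : ℝ) : ℝ :=
  ∫ s in Ioi (0 : ℝ), s ^ ε * Real.exp (-s) * besselI (r * s)

/-- `κ_n(r)`, the derivative of order `n` of `log |G_r|` at `0` -/
noncomputable def kappa (n : ℕ) (r : ℚ) : ℝ := iteratedDeriv n (fun ε => Real.log |G r ε|) 0

/-- the names of the algebraically independent numbers -/
inductive Index : Type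
  /-- `e` -/
  | e : Index
  /-- `κ_n(r) - κ_n(0)` -/
  | kappa (n : ℕ) (r : ℚ) : Index

/-- `r` is not `0` and `n` is at least `1` -/
def Index.Valid : Index → Prop
  | .e => True
  | .kappa n r => 1 ≤ n ∧ r ≠ 0

/-- the order of a number -/
def Index.order : Index → ℕ
  | .e => 0
  | .kappa n _ => n

/-- the algebraically independent numbers -/
noncomputable def number : Index → ℝ
  | .e => Real.exp 1
  | .kappa n r => kappa n r - kappa n 0

/-- the field `K_N` -/
noncomputable def baseField (N : Set ℕ) : IntermediateField ℚ ℝ :=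
  IntermediateField.adjoin ℚ (number '' {i | i.Valid ∧ i.order ∉ N})

/-- the names of `ζ(3) / π³` and `κ_n(r)` -/
inductive Name : Type
  /-- `ζ(3) / π³` -/
  | ratio : Name
  /-- `κ_n(r)` -/
  | kappa (n : ℕ) (r : ℚ) : Name

/-- `2 ≤ n ≤ 2c + 3`, and `r` is not `0` if `n` is even -/
def Name.Valid (c : ℕ) : Name → Prop
  | .ratio => True
  | .kappa n r => n ∈ Icc 2 (2 * c + 3) ∧ (Even n → r ≠ 0)

/-- the numbers -/
noncomputable def value : Name → ℝ
  | .ratio => zeta 3 / Real.pi ^ 3
  | .kappa n r => kappa n r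

/-- the names of the numbers `ζ(3) / π³`, `κ_n(r)` (`2 ≤ n ≤ 2c + 3`, `r` rational, `r ≠ 0` if `n` is even)
which are algebraic over `K_{2, …, 2c + 3}` -/
def algebraicNames (c : ℕ) : Set Name :=
  {i | i.Valid c ∧ IsAlgebraic (baseField (Icc 2 (2 * c + 3))) (value i)}

/-! ## Translation -/

open Pool.Agent.W5h65.GS Pool.Agent.W5h65.NC in
theorem G_eq (r : ℚ) (ε : ℝ) : G r ε = FI (gN (r : ℝ)) 0 ε := by
  rw [G, FI]
  refine MeasureTheory.setIntegral_congr_fun measurableSet_Ioi fun s _ => ?_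
  simp only [gN, pow_zero, besselI, bess]
  ring

open Pool.Agent.W5h65.GS Pool.Agent.W5h65.NC in
theorem kappa_eq (n : ℕ) (r : ℚ) : kappa n r = cum (gN (r : ℝ)) n := by
  rw [kappa, cum]
  congr 1
  funext ε
  rw [Real.log_abs, G_eq]

theorem kappa_zero {n : ℕ} (hn : 1 ≤ n) : kappa n 0 = Pool.Agent.R352.E.cc (n - 1) := by
  have h := Pool.Agent.W5h65.NC.rk_zero (n - 1)
  rw [Pool.Agent.W5h65.NC.rk, Nat.sub_add_cancel hn] at h
  rw [kappa_eq, Rat.cast_zero]
  linarith

theorem part0 : kappa 1 0 = -Real.eulerMascheroniConstant ∧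
    (∀ n : ℕ, 2 ≤ n → kappa n 0 = (-1) ^ n * (n - 1).factorial * zeta n) ∧
    (∀ r : ℚ, 0 < r → kappa 1 r = Real.log r +
      Real.exp (-r) * ∫ s in Ioi (0 : ℝ), Real.log (1 + s / r) * Real.exp (-s)) := by
  refine ⟨?_, ?_, ?_⟩
  · rw [kappa_zero le_rfl]
    rfl
  · intro n hn
    rw [kappa_zero (by omega)]
    obtain ⟨i, rfl⟩ : ∃ i, n = i + 2 := ⟨n - 2, by omega⟩
    have e1 : i + 2 - 1 = i + 1 := by omega
    rw [e1, Pool.Agent.R352.E.cc, pow_add (-1 : ℝ) i 2]
    simp only [zeta, Pool.Agent.R352.E.zt]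
    ring
  · intro r hr
    rw [kappa_eq, Pool.Agent.W5h65.NC.cum_one hr, Pool.Agent.R352.E.dl]
    simp only [pow_one]

/-- the encoding of the indices used in the proof -/
def enc : Index → Pool.Agent.W5h65.NC.IN
  | .e => none
  | .kappa n r => some (n - 1, r)

theorem enc_vld {i : Index} (h : i.Valid) : Pool.Agent.W5h65.NC.vld (enc i) := by
  cases i with
  | e => trivial
  | kappa n r => exact h.2

theorem enc_ord {i : Index} (h : i.Valid) : Pool.Agent.W5h65.NC.ord (enc i) = i.order := by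
  cases i with
  | e => rfl
  | kappa n r => exact Nat.sub_add_cancel h.1

theorem enc_nm {i : Index} (h : i.Valid) : Pool.Agent.W5h65.NC.nm (enc i) = number i := by
  cases i with
  | e => rfl
  | kappa n r =>
    have h1 : 1 ≤ n := h.1
    rw [number, kappa_zero h1, kappa_eq]
    show Pool.Agent.W5h65.NC.rk (r : ℝ) (n - 1) = _
    rw [Pool.Agent.W5h65.NC.rk, Nat.sub_add_cancel h1]

theorem enc_inj {i j : Index} (hi : i.Valid) (hj : j.Valid) (h : enc i = enc j) : i = j := by
  cases i <;> cases j <;> simp [enc] at h ⊢ <;> simp [Index.Valid] at hi hj <;> grind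

theorem indep : AlgebraicIndependent ℚ (fun i : {i : Index // i.Valid} => number i) := by
  have h := Pool.Agent.W5h65.NC.nm_alg_all.comp
    (fun i : {i : Index // i.Valid} => (⟨enc i.1, enc_vld i.2⟩ : {i // Pool.Agent.W5h65.NC.vld i}))
    (fun i j hij => Subtype.ext (enc_inj i.2 j.2 (congrArg Subtype.val hij)))
  convert h using 1
  funext i
  exact (enc_nm i.2).symm

open Pool.Agent.R352.E (clF mem_clF) in
theorem mem_base {N : Set ℕ} {x : ℝ} (h : IsAlgebraic (baseField N) x) :
    x ∈ clF (Pool.Agent.W5h65.NC.nm '' {i | Pool.Agent.W5h65.NC.vld i ∧ Pool.Agent.W5h65.NC.ord i ∉ N}) := by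
  have h1 : x ∈ clF (number '' {i | i.Valid ∧ i.order ∉ N}) := mem_clF.2 h
  refine Pool.Agent.R352.E.clF_mono ?_ h1
  rintro _ ⟨i, ⟨hi, hiN⟩, rfl⟩
  exact ⟨enc i, ⟨enc_vld hi, by rw [enc_ord hi]; exact hiN⟩, enc_nm hi⟩

/-- the encoding of the names in (2) -/
def enc1 (n : ℕ) (r : ℚ) : Fin 1 ⊕ Pool.Agent.W5h65.NC.IN := if r = 0 then Sum.inl 0 else Sum.inr (some (n - 1, r))

theorem enc1_inj (n : ℕ) : Function.Injective (enc1 n) := by
  intro i j h
  unfold enc1 at h
  split_ifs at h <;> simp_all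

theorem part2 {n : ℕ} (hn : 1 ≤ n) : {r : ℚ | IsAlgebraic (baseField {n}) (kappa n r)}.Subsingleton := by
  classical
  rw [← Set.encard_le_one_iff_subsingleton]
  refine Pool.Agent.R352.E.encard_le_of_finset _ 1 fun t ht => ?_
  have h := Pool.Agent.W5h65.NC.count_cum (m := 1) (fun _ => kappa n 0) {n} (by simp; omega) ?_
    (t.map ⟨enc1 n, enc1_inj n⟩) ?_ ?_
  · rwa [Finset.card_map] at h
  · intro T hT k hk
    have hk' : k = n := hk
    rw [hk', ← kappa_zero hn]
    exact hT 0
  · intro k hk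
    obtain ⟨r, hr, rfl⟩ := Finset.mem_map.1 hk
    have h1 := mem_base (ht hr)
    have h2 : Sum.elim (fun _ => kappa n 0) Pool.Agent.W5h65.NC.cm (enc1 n r) = kappa n r := by
      unfold enc1
      split_ifs with h0
      · rw [h0]; rfl
      · show Pool.Agent.W5h65.GS.cum (Pool.Agent.W5h65.NC.gN (r : ℝ)) (n - 1 + 1) = kappa n r
        rw [kappa_eq, Nat.sub_add_cancel hn]
    rw [Function.Embedding.coeFn_mk, h2]
    exact h1
  · intro i hi
    obtain ⟨r, hr, hri⟩ := Finset.mem_map.1 hi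
    rw [Function.Embedding.coeFn_mk, enc1] at hri
    split_ifs at hri with h0
    have h1 : i = some (n - 1, r) := (Sum.inr_injective hri).symm
    subst h1
    exact ⟨h0, Nat.sub_add_cancel hn⟩

/-- the encoding of the names in (3) -/
def enc3 (c : ℕ) : Name → Fin (c + 2) ⊕ Pool.Agent.W5h65.NC.IN
  | .ratio => Sum.inl 0
  | .kappa n r => if r = 0 then Sum.inl (Fin.ofNat (c + 2) ((n - 3) / 2 + 1)) else Sum.inr (some (n - 1, r))

/-- the constants in (3) -/
noncomputable def con (c : ℕ) : Fin (c + 2) → ℝ :=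
  Fin.cons (Pool.Agent.R352.E.zt 3 / Real.pi ^ 3) (fun i : Fin (c + 1) => Pool.Agent.R352.E.cc (2 * i + 2))

theorem valid_odd {c n : ℕ} (h : (Name.kappa n 0).Valid c) : ∃ i < c + 1, n = 2 * i + 3 := by
  obtain ⟨h1, h2⟩ := h
  have h3 : ¬ Even n := fun h => h2 h rfl
  rw [Nat.not_even_iff_odd] at h3
  obtain ⟨k, hk⟩ := h3
  obtain ⟨h4, h5⟩ := h1
  exact ⟨k - 1, by omega, by omega⟩

theorem enc3_inj {c : ℕ} {i j : Name} (hi : i.Valid c) (hj : j.Valid c) (h : enc3 c i = enc3 c j) : i = j := by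
  rcases i with _ | ⟨n, r⟩ <;> rcases j with _ | ⟨n', r'⟩
  · rfl
  · exfalso
    by_cases h0 : r' = 0
    · subst h0
      obtain ⟨k, hk, rfl⟩ := valid_odd hj
      simp only [enc3, if_true, Sum.inl.injEq] at h
      have e : (2 * k + 3 - 3) / 2 + 1 = k + 1 := by omega
      rw [e] at h
      have := congrArg Fin.val h
      simp only [Fin.val_zero, Fin.val_ofNat] at this
      rw [Nat.mod_eq_of_lt (by omega)] at this
      omega
    · simp [enc3, h0] at h
  · exfalso
    by_cases h0 : r = 0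
    · subst h0
      obtain ⟨k, hk, rfl⟩ := valid_odd hi
      simp only [enc3, if_true, Sum.inl.injEq] at h
      have e : (2 * k + 3 - 3) / 2 + 1 = k + 1 := by omega
      rw [e] at h
      have := congrArg Fin.val h
      simp only [Fin.val_zero, Fin.val_ofNat] at this
      rw [Nat.mod_eq_of_lt (by omega)] at this
      omega
    · simp [enc3, h0] at h
  · by_cases h0 : r = 0 <;> by_cases h0' : r' = 0
    · subst h0 h0'
      obtain ⟨k, hk, rfl⟩ := valid_odd hi
      obtain ⟨k', hk', rfl⟩ := valid_odd hj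
      simp only [enc3, if_true, Sum.inl.injEq] at h
      have e : (2 * k + 3 - 3) / 2 + 1 = k + 1 := by omega
      have e' : (2 * k' + 3 - 3) / 2 + 1 = k' + 1 := by omega
      rw [e, e'] at h
      have := congrArg Fin.val h
      simp only [Fin.val_ofNat] at this
      rw [Nat.mod_eq_of_lt (by omega), Nat.mod_eq_of_lt (by omega)] at this
      have h3 : k = k' := by omega
      rw [h3]
    · simp [enc3, h0, h0'] at h
    · simp [enc3, h0, h0'] at h
    · simp only [enc3, h0, h0', if_false, Sum.inr.injEq, Option.some.injEq, Prod.mk.injEq] at h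
      have h1 := hi.1.1
      have h2 := hj.1.1
      have h3 : n = n' := by have := h.1; omega
      rw [h3, h.2]

theorem part3 (c : ℕ) : (algebraicNames c).encard ≤ ((c + 2 : ℕ) : ℕ∞) := by
  classical
  refine Pool.Agent.R352.E.encard_le_of_finset _ _ fun t ht => ?_
  have hinj : Set.InjOn (enc3 c) (t : Set Name) := fun i hi j hj h => enc3_inj (ht hi).1 (ht hj).1 h
  have h := Pool.Agent.W5h65.NC.count_cum (m := c + 2) (con c) (Icc 2 (2 * c + 3)) (by simp) ?_
    (t.image (enc3 c)) ?_ ?_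
  · rwa [Finset.card_image_of_injOn hinj] at h
  · intro T hT n hn
    have hodd : ∀ i < c + 1, Pool.Agent.R352.E.zt (2 * i + 3) ∈ Pool.Agent.R352.E.clF T := by
      intro i hi
      have h1 := hT (Fin.succ ⟨i, hi⟩)
      simp only [con, Fin.cons_succ] at h1
      have e2 : 2 * i + 2 = (2 * i + 1) + 1 := by ring
      rw [e2, Pool.Agent.R352.E.cc] at h1
      have e3 : 2 * i + 1 + 2 = 2 * i + 3 := by ring
      rw [e3] at h1
      have h2 : Pool.Agent.R352.E.zt (2 * i + 3) =
          ((-1) ^ (2 * i + 1) * ((2 * i + 1 + 1).factorial : ℝ) * Pool.Agent.R352.E.zt (2 * i + 3)) /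
          ((-1) ^ (2 * i + 1) * ((2 * i + 1 + 1).factorial : ℝ)) := by
        have h3 : ((2 * i + 1 + 1).factorial : ℝ) ≠ 0 := by positivity
        have h4 : ((-1 : ℝ)) ^ (2 * i + 1) ≠ 0 := pow_ne_zero _ (by norm_num)
        field_simp
      rw [h2]
      refine Subfield.div_mem _ h1 (Subfield.mul_mem _ ?_ (natCast_mem _ _))
      exact Subfield.pow_mem _ (Subfield.neg_mem _ (Subfield.one_mem _)) _
    have hpi : Real.pi ∈ Pool.Agent.R352.E.clF T := by
      have h1 : Pool.Agent.R352.E.zt 3 ∈ Pool.Agent.R352.E.clF T := hodd 0 (by omega)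
      have h2 : Pool.Agent.R352.E.zt 3 / Real.pi ^ 3 ∈ Pool.Agent.R352.E.clF T := hT 0
      refine Pool.Agent.R352.E.of_pow (n := 3) (by norm_num) ?_
      have h3 : Real.pi ^ 3 = Pool.Agent.R352.E.zt 3 / (Pool.Agent.R352.E.zt 3 / Real.pi ^ 3) := by
        have := Pool.Agent.R352.E.zt3_pos.ne'
        have := Real.pi_ne_zero
        field_simp
      rw [h3]
      exact Subfield.div_mem _ h1 h2
    obtain ⟨i, rfl⟩ : ∃ i, n = i + 2 := ⟨n - 2, by have := hn.1; omega⟩
    have e1 : i + 2 - 1 = i + 1 := by omega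
    rw [e1, Pool.Agent.R352.E.cc]
    refine Subfield.mul_mem _ (Subfield.mul_mem _ ?_ (natCast_mem _ _)) ?_
    · exact Subfield.pow_mem _ (Subfield.neg_mem _ (Subfield.one_mem _)) _
    · exact Pool.Agent.R352.E.zt_all hpi (c + 1) hodd (i + 2) hn.1 (by have := hn.2; omega)
  · intro k hk
    obtain ⟨i, hi, rfl⟩ := Finset.mem_image.1 hk
    have h1 := mem_base (ht hi).2
    have hv := (ht hi).1
    have h2 : Sum.elim (con c) Pool.Agent.W5h65.NC.cm (enc3 c i) = value i := by
      cases i with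
      | ratio => rfl
      | kappa n r =>
        by_cases h0 : r = 0
        · subst h0
          obtain ⟨l, hl, hn⟩ := valid_odd hv
          subst hn
          have e : (2 * l + 3 - 3) / 2 + 1 = l + 1 := by omega
          have e4 : Fin.ofNat (c + 2) (l + 1) = Fin.succ ⟨l, hl⟩ := by
            apply Fin.ext
            rw [Fin.val_ofNat, Nat.mod_eq_of_lt (by omega)]
            rfl
          simp only [enc3, if_true, Sum.elim_inl, e, e4, con, Fin.cons_succ, value]
          rw [kappa_zero (by omega)]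
          rfl
        · simp only [enc3, h0, if_false, Sum.elim_inr, value]
          show Pool.Agent.W5h65.GS.cum (Pool.Agent.W5h65.NC.gN (r : ℝ)) (n - 1 + 1) = kappa n r
          have : 2 ≤ n := hv.1.1
          rw [kappa_eq, Nat.sub_add_cancel (by omega)]
    rw [h2]
    exact h1
  · intro i hi
    obtain ⟨j, hj, hji⟩ := Finset.mem_image.1 hi
    have hv := (ht hj).1
    cases j with
    | ratio => exact absurd hji (by simp [enc3])
    | kappa n r =>
      rw [enc3] at hji
      split_ifs at hji with h0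
      have h1 : i = some (n - 1, r) := (Sum.inr_injective hji).symm
      subst h1
      refine ⟨h0, ?_⟩
      have h2 : n - 1 + 1 = n := Nat.sub_add_cancel (by have : 2 ≤ n := hv.1.1; omega)
      show n - 1 + 1 ∈ Icc 2 (2 * c + 3)
      rw [h2]
      exact hv.1

theorem result :
    -- (0)
    (kappa 1 0 = -Real.eulerMascheroniConstant ∧
      (∀ n : ℕ, 2 ≤ n → kappa n 0 = (-1) ^ n * (n - 1).factorial * zeta n) ∧
      (∀ r : ℚ, 0 < r → kappa 1 r = Real.log r +
        Real.exp (-r) * ∫ s in Ioi (0 : ℝ), Real.log (1 + s / r) * Real.exp (-s))) ∧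
    -- (1)
    AlgebraicIndependent ℚ (fun i : {i : Index // i.Valid} => number i) ∧
    -- (2)
    (∀ n : ℕ, 1 ≤ n → {r : ℚ | IsAlgebraic (baseField {n}) (kappa n r)}.Subsingleton) ∧
    -- (3)
    (∀ c : ℕ, (algebraicNames c).encard ≤ ((c + 2 : ℕ) : ℕ∞)) :=
  ⟨part0, indep, fun _ hn => part2 hn, part3⟩

end Pool.Agent.Results.MP_e48a95_nt.NoncentralCumulants
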